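import Pool.Agent.Y408.CS.Main

/-!
# Chromatic schemes: every large `p`, a linear gap, independence number two

For every `p ≥ 4864 * 2 ^ 457` there is a finite `p`-chromatic graph without three pairwise
non-adjacent vertices, such that for every `q ≥ (463 / 464) p` no subgraph of it has a chromatic
`q`-scheme, and no subgraph of it has a Kempe clique of order `q`, for any number of colours.
-/

namespace Pool.Agent.Results.MP_4cad9a_co.LinearGap

/-- `HasChromaticScheme H q`: the graph `H` admits a chromatic `q`-scheme, i.e. there are a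
proper colouring `Q` with `q` colours, `q` distinct basis vertices `v i`, and for every `i < j`
a path `P i j` of `H` from `v i` to `v j`, such that
* paths whose index pairs are disjoint have no common vertex,
* the basis vertices have pairwise distinct colours,
* every vertex of the path from `v i` to `v j` has the colour of `v i` or of `v j`. -/
def HasChromaticScheme {W : Type} (H : SimpleGraph W) (q : ℕ) : Prop :=
  ∃ (Q : W → Fin q) (v : Fin q → W) (P : ∀ i j : Fin q, i < j → H.Walk (v i) (v j)),
    (∀ x y, H.Adj x y → Q x ≠ Q y) ∧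
    Function.Injective v ∧
    (∀ i j (h : i < j), (P i j h).IsPath) ∧
    (∀ i j k l (h : i < j) (h' : k < l), i ≠ k → i ≠ l → j ≠ k → j ≠ l →
      ∀ x, x ∈ (P i j h).support → x ∉ (P k l h').support) ∧
    Function.Injective (fun i => Q (v i)) ∧
    (∀ i j (h : i < j), ∀ x ∈ (P i j h).support, Q x = Q (v i) ∨ Q x = Q (v j))

/-- `HasKempeClique H q`: the graph `H` has a proper colouring `Q`, with any set `C` of colours,
and `q` vertices of pairwise distinct colours, every two of which are joined by a walk on which
only the colours of its two ends occur (so they lie in one Kempe chain).  The walks need not be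
disjoint.  A graph with a chromatic `q`-scheme has a Kempe clique of order `q`. -/
def HasKempeClique {W : Type} (H : SimpleGraph W) (q : ℕ) : Prop :=
  ∃ (C : Type) (Q : W → C) (v : Fin q → W),
    (∀ x y, H.Adj x y → Q x ≠ Q y) ∧
    Function.Injective (fun i => Q (v i)) ∧
    ∀ i j, i ≠ j → ∃ P : H.Walk (v i) (v j), ∀ x ∈ P.support, Q x = Q (v i) ∨ Q x = Q (v j)

/-- For every `p ≥ 4864 * 2 ^ 457` there is a finite graph `G` with chromatic number `p` and with
no three pairwise non-adjacent vertices such that no subgraph of `G` admits a chromatic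
`p`-scheme.  Moreover, for every `q ≥ (463 / 464) p`, no subgraph of `G` admits a chromatic
`q`-scheme, and no subgraph of `G` has a Kempe clique of order `q`. -/
theorem result : ∀ p : ℕ, 4864 * 2 ^ 457 ≤ p →
    ∃ (V : Type) (_ : Fintype V) (G : SimpleGraph V),
      G.chromaticNumber = p ∧
      (∀ x y z : V, x ≠ y → y ≠ z → x ≠ z → G.Adj x y ∨ G.Adj y z ∨ G.Adj x z) ∧
      (∀ G' : G.Subgraph, ¬ HasChromaticScheme G'.coe p) ∧
      (∀ q : ℕ, 463 * p ≤ 464 * q → ∀ G' : G.Subgraph,
        ¬ HasChromaticScheme G'.coe q ∧ ¬ HasKempeClique G'.coe q) := by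
  intro p hp
  obtain ⟨V, hV, G, h1, h2, h3⟩ := Pool.Agent.Y408.CS.main p hp
  refine ⟨V, hV, G, h1, h2, ?_, ?_⟩
  · intro G' h
    exact h3 p (Nat.mul_le_mul_right _ (by norm_num)) G' (Pool.Agent.Y408.CS.kempe_of_scheme _ _ h)
  · intro q hq G'
    exact ⟨fun h => h3 q hq G' (Pool.Agent.Y408.CS.kempe_of_scheme _ _ h), h3 q hq G'⟩

end Pool.Agent.Results.MP_4cad9a_co.LinearGap
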